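import Mathlib

/-!
Integrable groups: group theoretic lemmas.
-/

set_option autoImplicit false

namespace Pool.Agent.X185.IG

/-- A group is integrable if it is isomorphic to the derived subgroup of some group. -/
def Integrable (G : Type) [Group G] : Prop :=
  ∃ (H : Type) (_ : Group H), Nonempty (commutator H ≃* G)

theorem Integrable.of_equiv {G K : Type} [Group G] [Group K] (h : Integrable G) (e : G ≃* K) :
    Integrable K := by
  obtain ⟨H, i, ⟨f⟩⟩ := h
  exact ⟨H, i, ⟨f.trans e⟩⟩

/-! ### The free group of rank two is integrable -/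

section free

/-- The automorphism `x ↦ y`, `y ↦ x⁻¹ y`. -/
def al : MulAut (FreeGroup (Fin 2)) where
  toFun := FreeGroup.lift ![FreeGroup.of 1, (FreeGroup.of 0)⁻¹ * FreeGroup.of 1]
  invFun := FreeGroup.lift ![FreeGroup.of 0 * (FreeGroup.of 1)⁻¹, FreeGroup.of 0]
  left_inv := by
    intro x
    have : (FreeGroup.lift ![FreeGroup.of 0 * (FreeGroup.of 1)⁻¹, FreeGroup.of 0]).comp
        (FreeGroup.lift ![FreeGroup.of 1, (FreeGroup.of 0)⁻¹ * FreeGroup.of 1]) =
        MonoidHom.id (FreeGroup (Fin 2)) := by
      ext i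
      fin_cases i <;> simp
    exact DFunLike.congr_fun this x
  right_inv := by
    intro x
    have : (FreeGroup.lift ![FreeGroup.of 1, (FreeGroup.of 0)⁻¹ * FreeGroup.of 1]).comp
        (FreeGroup.lift ![FreeGroup.of 0 * (FreeGroup.of 1)⁻¹, FreeGroup.of 0]) =
        MonoidHom.id (FreeGroup (Fin 2)) := by
      ext i
      fin_cases i <;> simp
    exact DFunLike.congr_fun this x
  map_mul' := by
    intro x y
    exact map_mul _ x y

theorem al_apply (x : FreeGroup (Fin 2)) : al x =
    (FreeGroup.lift ![FreeGroup.of 1, (FreeGroup.of 0)⁻¹ * FreeGroup.of 1] :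
      FreeGroup (Fin 2) →* FreeGroup (Fin 2)) x := rfl

theorem al_zero : al (FreeGroup.of 0) = FreeGroup.of 1 := by
  rw [al_apply]
  simp

theorem al_one : al (FreeGroup.of 1) = (FreeGroup.of 0)⁻¹ * FreeGroup.of 1 := by
  rw [al_apply]
  simp

/-- The mapping torus. -/
abbrev HH : Type := FreeGroup (Fin 2) ⋊[zpowersHom (MulAut (FreeGroup (Fin 2))) al] Multiplicative ℤ

theorem comm_HH : commutator HH = (SemidirectProduct.inl :
    FreeGroup (Fin 2) →* HH).range := by
  apply le_antisymm
  · rw [SemidirectProduct.range_inl_eq_ker_rightHom]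
    exact Abelianization.commutator_subset_ker _
  · have key : ∀ x : FreeGroup (Fin 2),
        (SemidirectProduct.inl (al x * x⁻¹) : HH) ∈ commutator HH := by
      intro x
      have h := SemidirectProduct.inl_aut (φ := zpowersHom (MulAut (FreeGroup (Fin 2))) al)
        (Multiplicative.ofAdd 1) x
      have h1 : (zpowersHom (MulAut (FreeGroup (Fin 2))) al) (Multiplicative.ofAdd 1) = al := by
        simp
      rw [h1] at h
      rw [map_mul, h, map_inv]
      exact Subgroup.commutator_mem_commutator (Subgroup.mem_top _) (Subgroup.mem_top _)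
    have h0 : (SemidirectProduct.inl (FreeGroup.of 0) : HH) ∈ commutator HH := by
      have := key (FreeGroup.of 1)
      rw [al_one, mul_inv_cancel_right, map_inv, Subgroup.inv_mem_iff] at this
      exact this
    have h1 : (SemidirectProduct.inl (FreeGroup.of 1) : HH) ∈ commutator HH := by
      have := key (FreeGroup.of 0)
      rw [al_zero, map_mul, map_inv] at this
      have h2 := Subgroup.mul_mem _ this h0
      rwa [inv_mul_cancel_right] at h2
    have h2 : (⊤ : Subgroup (FreeGroup (Fin 2))) ≤ (commutator HH).comap SemidirectProduct.inl := by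
      rw [← FreeGroup.closure_range_of, Subgroup.closure_le]
      rintro _ ⟨i, rfl⟩
      fin_cases i
      · exact h0
      · exact h1
    rintro _ ⟨x, rfl⟩
    exact h2 (Subgroup.mem_top x)

theorem free_integrable : Integrable (FreeGroup (Fin 2)) := by
  refine ⟨HH, inferInstance, ⟨?_⟩⟩
  exact (MulEquiv.subgroupCongr comm_HH).trans
    (MonoidHom.ofInjective SemidirectProduct.inl_injective).symm

end free

/-! ### Perfect subgroups of free groups -/

theorem perfect_free {β : Type} (S : Subgroup (FreeGroup β)) (hS : S ≤ ⁅S, S⁆) : S = ⊥ := by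
  have h1 : commutator S = ⊤ := by
    rw [eq_top_iff]
    intro x _
    have h2 : (x : FreeGroup β) ∈ (commutator S).map S.subtype := by
      rw [Subgroup.map_subtype_commutator]
      exact hS x.2
    obtain ⟨y, hy, e⟩ := h2
    have : y = x := Subtype.ext e
    rwa [← this]
  by_contra hne
  have hem : IsEmpty (IsFreeGroup.Generators S) := by
    by_contra h3
    rw [not_isEmpty_iff] at h3
    obtain ⟨g⟩ := h3
    let F : S →* Multiplicative ℤ := IsFreeGroup.lift (fun _ => Multiplicative.ofAdd 1)
    have h4 : F (IsFreeGroup.of g) = 1 := by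
      have : IsFreeGroup.of g ∈ commutator S := by rw [h1]; trivial
      exact Abelianization.commutator_subset_ker F this
    rw [IsFreeGroup.lift_of] at h4
    have h5 : (1 : ℤ) = 0 := congrArg Multiplicative.toAdd h4
    exact absurd h5 (by norm_num)
  apply hne
  rw [eq_bot_iff]
  intro x hx
  have h6 : ((IsFreeGroup.toFreeGroup S) ⟨x, hx⟩) = 1 := by
    have : Subsingleton (FreeGroup (IsFreeGroup.Generators S)) := inferInstance
    exact Subsingleton.elim _ _
  have h7 : (⟨x, hx⟩ : S) = 1 := by
    rw [← (IsFreeGroup.toFreeGroup S).map_eq_one_iff]; exact h6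
  exact congrArg Subtype.val h7

/-! ### The symmetric group of degree three -/

section S3

open Equiv

/-- Injective endomorphisms of `S₃` are inner. -/
theorem aut_S3 (F : Perm (Fin 3) → Perm (Fin 3)) (hm : ∀ x y, F (x * y) = F x * F y)
    (hi : Function.Injective F) : ∃ s, ∀ x, F x = s * x * s⁻¹ := by
  have h1 : F 1 = 1 := by
    have := hm 1 1
    rw [mul_one] at this
    exact (mul_eq_left.1 this.symm)
  have hpp : ∀ x, x * x = 1 → F x * F x = 1 := by
    intro x hx
    rw [← hm, hx, h1]
  have hne : ∀ x, x ≠ 1 → F x ≠ 1 := by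
    intro x hx h
    exact hx (hi (h.trans h1.symm))
  have key : ∀ a b : Perm (Fin 3), (a * a = 1 ∧ a ≠ 1 ∧ b * b = 1 ∧ b ≠ 1 ∧ a ≠ b) →
      ∃ s : Perm (Fin 3), s * swap 0 1 * s⁻¹ = a ∧ s * swap 1 2 * s⁻¹ = b := by decide
  obtain ⟨s, hs1, hs2⟩ := key (F (swap 0 1)) (F (swap 1 2)) ⟨hpp _ (by decide), hne _ (by decide),
    hpp _ (by decide), hne _ (by decide), fun h => absurd (hi h) (by decide)⟩
  refine ⟨s, fun x => ?_⟩
  have hx : ∀ x : Perm (Fin 3), x = 1 ∨ x = swap 0 1 ∨ x = swap 1 2 ∨ x = swap 0 1 * swap 1 2 ∨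
    x = swap 1 2 * swap 0 1 ∨ x = swap 0 1 * swap 1 2 * swap 0 1 := by decide
  rcases hx x with rfl | rfl | rfl | rfl | rfl | rfl
  · rw [h1]; simp
  · exact hs1.symm
  · exact hs2.symm
  · rw [hm, ← hs1, ← hs2]; group
  · rw [hm, ← hs1, ← hs2]; group
  · rw [hm, hm, ← hs1, ← hs2]; group

theorem centerless_S3 : ∀ a b : Perm (Fin 3), (∀ x, a * x * a⁻¹ = b * x * b⁻¹) → a = b := by decide

/-- A derived subgroup has no homomorphism onto `S₃` with kernel normal in the whole group. -/
theorem no_S3 {H : Type} [Group H] (ψ : commutator H →* Perm (Fin 3))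
    (hs : Function.Surjective ψ)
    (hk : ∀ (h : H) (n : commutator H), ψ n = 1 → ψ (MulAut.conjNormal h n) = 1) : False := by
  have hw : ∀ (h : H) (n n' : commutator H), ψ n = ψ n' →
      ψ (MulAut.conjNormal h n) = ψ (MulAut.conjNormal h n') := by
    intro h n n' e
    have h1 : ψ (n * n'⁻¹) = 1 := by rw [map_mul, map_inv, e, mul_inv_cancel]
    have h2 := hk h _ h1
    rw [map_mul, map_mul, map_inv, map_inv, mul_inv_eq_one] at h2
    exact h2
  choose c hc using hs
  let F : H → Perm (Fin 3) → Perm (Fin 3) := fun h x => ψ (MulAut.conjNormal h (c x))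
  have hF : ∀ h n, F h (ψ n) = ψ (MulAut.conjNormal h n) := fun h n => hw h _ _ (hc _)
  have hFm : ∀ h x y, F h (x * y) = F h x * F h y := by
    intro h x y
    have : F h (x * y) = ψ (MulAut.conjNormal h (c x * c y)) := by
      rw [← hF, map_mul, hc, hc]
    rw [this, map_mul, map_mul]
  have hFF : ∀ h h' x, F (h * h') x = F h (F h' x) := by
    intro h h' x
    show ψ (MulAut.conjNormal (h * h') (c x)) = F h (ψ (MulAut.conjNormal h' (c x)))
    rw [hF, map_mul]
    rfl
  have hF1 : ∀ x, F 1 x = x := by
    intro x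
    show ψ (MulAut.conjNormal 1 (c x)) = x
    rw [map_one]
    exact hc x
  have hFi : ∀ h, Function.Injective (F h) := by
    intro h
    apply Function.LeftInverse.injective (g := F h⁻¹)
    intro x
    rw [← hFF, inv_mul_cancel, hF1]
  choose s hs using fun h => aut_S3 (F h) (hFm h) (hFi h)
  let S : H →* Perm (Fin 3) :=
    { toFun := s
      map_one' := by
        apply centerless_S3
        intro x
        rw [← hs, hF1]; simp
      map_mul' := by
        intro h h'
        apply centerless_S3
        intro x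
        rw [← hs, hFF, hs h', hs h]; group }
  have hSn : ∀ n : commutator H, S n = ψ n := by
    intro n
    apply centerless_S3
    intro x
    show s n * x * (s n)⁻¹ = _
    rw [← hs]
    have h1 : x = ψ (c x) := (hc x).symm
    conv_lhs => rw [h1]
    rw [hF]
    have h2 : MulAut.conjNormal (n : H) (c x) = n * c x * n⁻¹ := by
      apply Subtype.ext
      simp
    rw [h2, map_mul, map_mul, map_inv, hc]
  have h3 := Abelianization.commutator_subset_ker (Perm.sign.comp S)
    (c (swap 0 1)).2
  have h4 : Perm.sign (S (c (swap 0 1))) = 1 := h3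
  rw [hSn, hc, Perm.sign_swap (by decide)] at h4
  exact absurd h4 (by decide)

end S3

end Pool.Agent.X185.IG
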