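import Pool.Agent.X185.IG.Base

/-!
The core argument: a group which is an extension of a perfect group (generated by three copies of a
perfect group) by a free group of rank two acting on the copies as `S₃` is not integrable.
-/

set_option autoImplicit false

namespace Pool.Agent.X185.IG

open Equiv

/-- The wreath product. -/
abbrev Wr (K : Type) [Group K] : Type := (Fin 3 → K) ⋊[mulAutArrow] Perm (Fin 3)

theorem act_single {K : Type} [Group K] (s : Perm (Fin 3)) (j : Fin 3) (k : K) :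
    (mulAutArrow s : MulAut (Fin 3 → K)) (Pi.mulSingle j k) = Pi.mulSingle (s j) k := by
  ext a
  show (Pi.mulSingle j k : Fin 3 → K) (s⁻¹ • a) = _
  have h1 : (s⁻¹ • a) = s.symm a := rfl
  rw [h1]
  by_cases h : a = s j
  · subst h
    rw [Equiv.symm_apply_apply, Pi.mulSingle_eq_same, Pi.mulSingle_eq_same]
  · rw [Pi.mulSingle_eq_of_ne h, Pi.mulSingle_eq_of_ne]
    intro h2
    apply h
    rw [← h2, Equiv.apply_symm_apply]

theorem not_integrable {G : Type} [Group G] (N : ℕ) (hN : 0 < N) (g : ℕ → ℕ)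
    (hg : ∀ h < N, g h < N)
    (v : Fin 3 → ℕ → G) (f0 f1 : G)
    (H1 : ∀ j, ∀ h < N, (v j (g h))⁻¹ * v j h * v j (g h) * (v j h)⁻¹ * (v j h)⁻¹ = 1)
    (H20 : ∀ j, ∀ h < N, f0 * v j h * f0⁻¹ = v (swap 0 1 j) h)
    (H21 : ∀ j, ∀ h < N, f1 * v j h * f1⁻¹ = v (swap 1 2 j) h)
    (Hgen : Subgroup.closure ({x | ∃ j, ∃ h < N, x = v j h} ∪ {f0, f1}) = ⊤)
    (Φ : G →* FreeGroup (Fin 2)) (Φv : ∀ j, ∀ h < N, Φ (v j h) = 1)
    (Φ0 : Φ f0 = FreeGroup.of 0) (Φ1 : Φ f1 = FreeGroup.of 1)
    {K : Type} [Group K] (k : ℕ → K) (hk0 : k 0 ≠ 1) (A : G →* Wr K)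
    (Av : ∀ j, ∀ h < N, A (v j h) = SemidirectProduct.inl (Pi.mulSingle j (k h)))
    (A0 : A f0 = SemidirectProduct.inr (swap 0 1)) (A1 : A f1 = SemidirectProduct.inr (swap 1 2)) :
    ¬ Integrable G := by
  set X : Set G := {x | ∃ j, ∃ h < N, x = v j h} with hX
  set P : Subgroup G := Subgroup.closure X with hP
  have vP : ∀ j, ∀ h < N, v j h ∈ P := fun j h hh => Subgroup.subset_closure ⟨j, h, hh, rfl⟩
  -- normality
  have conj_of : ∀ (f : G) (s : Perm (Fin 3)), (∀ j, ∀ h < N, f * v j h * f⁻¹ = v (s j) h) →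
      ∀ x ∈ P, f * x * f⁻¹ ∈ P := by
    intro f s hs
    have : P ≤ P.comap (MulAut.conj f).toMonoidHom := by
      rw [hP, Subgroup.closure_le]
      rintro _ ⟨j, h, hh, rfl⟩
      show f * v j h * f⁻¹ ∈ P
      rw [hs j h hh]
      exact vP _ _ hh
    exact fun x hx => this hx
  have inv_of : ∀ (f : G) (s : Perm (Fin 3)), s * s = 1 →
      (∀ j, ∀ h < N, f * v j h * f⁻¹ = v (s j) h) →
      ∀ j, ∀ h < N, f⁻¹ * v j h * f⁻¹⁻¹ = v (s j) h := by
    intro f s hss hs j h hh
    have h1 := hs (s j) h hh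
    have h2 : s (s j) = j := congrFun (congrArg DFunLike.coe hss) j
    rw [h2] at h1
    rw [← h1]
    group
  have hnorm : P.Normal := by
    constructor
    intro x hx y
    have hy : y ∈ Subgroup.closure (X ∪ {f0, f1}) := by rw [Hgen]; trivial
    have key : ∀ y ∈ Subgroup.closure (X ∪ {f0, f1}), ∀ x ∈ P, y * x * y⁻¹ ∈ P ∧
        y⁻¹ * x * y ∈ P := by
      intro y hy
      induction hy using Subgroup.closure_induction with
      | mem y hy =>
        intro x hx
        rcases hy with hy | hy | hy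
        · have : y ∈ P := Subgroup.subset_closure hy
          exact ⟨P.mul_mem (P.mul_mem this hx) (P.inv_mem this),
            P.mul_mem (P.mul_mem (P.inv_mem this) hx) this⟩
        · subst hy
          refine ⟨conj_of _ _ H20 x hx, ?_⟩
          have := conj_of _ _ (inv_of _ _ (by decide) H20) x hx
          rwa [inv_inv] at this
        · have hy' : y = f1 := hy
          subst hy'
          refine ⟨conj_of _ _ H21 x hx, ?_⟩
          have := conj_of _ _ (inv_of _ _ (by decide) H21) x hx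
          rwa [inv_inv] at this
      | one => intro x hx; simpa using hx
      | mul y z _ _ hy hz =>
        intro x hx
        refine ⟨?_, ?_⟩
        · have := (hy _ (hz x hx).1).1
          have e : y * z * x * (y * z)⁻¹ = y * (z * x * z⁻¹) * y⁻¹ := by group
          rw [e]; exact this
        · have := (hz _ (hy x hx).2).2
          have e : (y * z)⁻¹ * x * (y * z) = z⁻¹ * (y⁻¹ * x * y) * z := by group
          rw [e]; exact this
      | inv y _ hy =>
        intro x hx
        rw [inv_inv]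
        exact ⟨(hy x hx).2, (hy x hx).1⟩
    exact (key y hy x hx).1
  -- the permutation homomorphism
  set ψ : G →* Perm (Fin 3) := SemidirectProduct.rightHom.comp A with hψ
  have ψv : ∀ j, ∀ h < N, ψ (v j h) = 1 := by
    intro j h hh
    show SemidirectProduct.rightHom (A (v j h)) = 1
    rw [Av j h hh]; rfl
  have ψ0 : ψ f0 = swap 0 1 := by
    show SemidirectProduct.rightHom (A f0) = _
    rw [A0]; rfl
  have ψ1 : ψ f1 = swap 1 2 := by
    show SemidirectProduct.rightHom (A f1) = _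
    rw [A1]; rfl
  have Pψ : P ≤ ψ.ker := by
    rw [hP, Subgroup.closure_le]
    rintro _ ⟨j, h, hh, rfl⟩
    exact ψv j h hh
  -- the section
  let Ψ : FreeGroup (Fin 2) →* G := FreeGroup.lift ![f0, f1]
  have Ψ0 : Ψ (FreeGroup.of 0) = f0 := by
    show FreeGroup.lift ![f0, f1] (FreeGroup.of 0) = f0
    rw [FreeGroup.lift_apply_of]; rfl
  have Ψ1 : Ψ (FreeGroup.of 1) = f1 := by
    show FreeGroup.lift ![f0, f1] (FreeGroup.of 1) = f1
    rw [FreeGroup.lift_apply_of]; rfl
  have hD : ∀ u : FreeGroup (Fin 2), ∀ j, ∀ h < N, Ψ u * v j h * (Ψ u)⁻¹ = v (ψ (Ψ u) j) h := by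
    have hof : ∀ i : Fin 2, ∀ j, ∀ h < N, Ψ (FreeGroup.of i) * v j h * (Ψ (FreeGroup.of i))⁻¹ =
        v (ψ (Ψ (FreeGroup.of i)) j) h := by
      intro i j h hh
      fin_cases i
      · show Ψ (FreeGroup.of 0) * v j h * (Ψ (FreeGroup.of 0))⁻¹ = v (ψ (Ψ (FreeGroup.of 0)) j) h
        rw [Ψ0, ψ0]; exact H20 j h hh
      · show Ψ (FreeGroup.of 1) * v j h * (Ψ (FreeGroup.of 1))⁻¹ = v (ψ (Ψ (FreeGroup.of 1)) j) h
        rw [Ψ1, ψ1]; exact H21 j h hh
    intro u
    induction u using FreeGroup.induction_on with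
    | C1 => intro j h hh; simp
    | of i => exact hof i
    | inv_of i ih =>
      intro j h hh
      rw [map_inv, map_inv]
      have h1 := hof i ((ψ (Ψ (FreeGroup.of i)))⁻¹ j) h hh
      have h2 : ψ (Ψ (FreeGroup.of i)) ((ψ (Ψ (FreeGroup.of i)))⁻¹ j) = j :=
        Equiv.apply_symm_apply _ _
      rw [h2] at h1
      rw [← h1]
      group
    | mul x y hx hy =>
      intro j h hh
      rw [map_mul, map_mul, Perm.mul_apply, ← hx _ h hh, ← hy j h hh]
      group
  have hsec : ∀ x : G, (Ψ (Φ x))⁻¹ * x ∈ P := by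
    intro x
    rw [← QuotientGroup.eq]
    have : (QuotientGroup.mk' P).comp (Ψ.comp Φ) = QuotientGroup.mk' P := by
      refine MonoidHom.eq_of_eqOn_dense Hgen ?_
      rintro y (⟨j, h, hh, rfl⟩ | hy | hy)
      · show QuotientGroup.mk' P (Ψ (Φ (v j h))) = QuotientGroup.mk' P (v j h)
        rw [Φv j h hh, map_one, map_one]
        exact ((QuotientGroup.eq_one_iff _).2 (vP j h hh)).symm
      · subst hy
        show QuotientGroup.mk' P (Ψ (Φ y)) = QuotientGroup.mk' P y
        rw [Φ0, Ψ0]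
      · have hy' : y = f1 := hy
        subst hy'
        show QuotientGroup.mk' P (Ψ (Φ y)) = QuotientGroup.mk' P y
        rw [Φ1, Ψ1]
    exact DFunLike.congr_fun this x
  -- perfect subgroups
  have hperf : P ≤ ⁅P, P⁆ := by
    conv_lhs => rw [hP]
    rw [Subgroup.closure_le]
    rintro _ ⟨j, h, hh, rfl⟩
    have h1 := H1 j h hh
    have h2 : v j h = (v j h)⁻¹ * (v j (g h))⁻¹ * (v j h)⁻¹⁻¹ * (v j (g h))⁻¹⁻¹ := by
      have h3 : (v j (g h))⁻¹ * v j h * v j (g h) = v j h * v j h := by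
        rw [mul_inv_eq_one, mul_inv_eq_iff_eq_mul] at h1
        exact h1
      calc v j h = (v j h)⁻¹ * (v j h * v j h) := by group
        _ = (v j h)⁻¹ * ((v j (g h))⁻¹ * v j h * v j (g h)) := by rw [h3]
        _ = _ := by group
    show v j h ∈ ⁅P, P⁆
    rw [h2]
    exact Subgroup.commutator_mem_commutator (P.inv_mem (vP j h hh))
      (P.inv_mem (vP j (g h) (hg h hh)))
  have hmax : ∀ S : Subgroup G, S ≤ ⁅S, S⁆ → S ≤ P := by
    intro S hS
    have h1 : S.map Φ = ⊥ := by
      apply perfect_free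
      rw [← Subgroup.map_commutator]
      exact Subgroup.map_mono hS
    intro x hx
    have h2 : Φ x = 1 := by
      have : Φ x ∈ S.map Φ := ⟨x, hx, rfl⟩
      rw [h1] at this
      exact Subgroup.mem_bot.1 this
    have h3 := hsec x
    rwa [h2, map_one, inv_one, one_mul] at h3
  have hchar : ∀ α : G ≃* G, ∀ x ∈ P, α x ∈ P := by
    intro α x hx
    apply hmax (P.map α.toMonoidHom)
    · rw [← Subgroup.map_commutator]
      exact Subgroup.map_mono hperf
    · exact ⟨x, hx, rfl⟩
  -- centralizers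
  have hcent : ∀ c : G, (∀ j, c * v j 0 = v j 0 * c) → ψ c = 1 := by
    intro c hc
    ext j : 1
    by_contra hne
    have h1 := congrArg A (hc j)
    rw [map_mul, map_mul, Av j 0 hN] at h1
    have h2 := congrArg SemidirectProduct.left h1
    rw [SemidirectProduct.mul_left, SemidirectProduct.mul_left, SemidirectProduct.left_inl,
      SemidirectProduct.right_inl] at h2
    rw [act_single, map_one, MulAut.one_apply] at h2
    have h3 := congrFun h2 ((A c).right j)
    rw [Pi.mul_apply, Pi.mul_apply, Pi.mulSingle_eq_same, Pi.mulSingle_eq_of_ne, one_mul] at h3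
    · exact hk0 (mul_eq_left.1 h3)
    · exact hne
  -- the kernel of ψ is characteristic
  have hker : ∀ α : G ≃* G, ∀ x, ψ x = 1 → ψ (α x) = 1 := by
    intro α x hx
    set y := Ψ (Φ x) with hy
    have hp := hsec x
    have hψy : ψ y = 1 := by
      have h1 : ψ (y⁻¹ * x) = 1 := Pψ hp
      rw [map_mul, hx, mul_one, map_inv, inv_eq_one] at h1
      exact h1
    have hyv : ∀ z ∈ P, y * z = z * y := by
      have : P ≤ Subgroup.centralizer {y} := by
        rw [hP, Subgroup.closure_le]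
        rintro _ ⟨j, h, hh, rfl⟩
        have h1 := hD (Φ x) j h hh
        rw [← hy, hψy, Perm.one_apply, mul_inv_eq_iff_eq_mul] at h1
        show v j h ∈ Subgroup.centralizer {y}
        rw [Subgroup.mem_centralizer_singleton_iff]
        exact h1.symm
      intro z hz
      have h1 := this hz
      rw [Subgroup.mem_centralizer_singleton_iff] at h1
      exact h1.symm
    have h1 : ψ (α y) = 1 := by
      apply hcent
      intro j
      have h2 := hyv _ (hchar α.symm _ (vP j 0 hN))
      have h3 := congrArg α h2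
      rw [map_mul, map_mul, MulEquiv.apply_symm_apply] at h3
      exact h3
    have h2 : ψ (α (y⁻¹ * x)) = 1 := Pψ (hchar α _ hp)
    have h3 : x = y * (y⁻¹ * x) := by group
    rw [h3, map_mul, map_mul, h1, h2, one_mul]
  -- conclusion
  rintro ⟨H, iH, ⟨θ⟩⟩
  refine no_S3 (ψ.comp θ.toMonoidHom) ?_ ?_
  · intro x
    have hx : ∀ x : Perm (Fin 3), x = 1 ∨ x = swap 0 1 ∨ x = swap 1 2 ∨ x = swap 0 1 * swap 1 2 ∨
      x = swap 1 2 * swap 0 1 ∨ x = swap 0 1 * swap 1 2 * swap 0 1 := by decide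
    have hs : ∀ y : G, ∃ n, (ψ.comp θ.toMonoidHom) n = ψ y := by
      intro y
      refine ⟨θ.symm y, ?_⟩
      show ψ (θ (θ.symm y)) = ψ y
      rw [MulEquiv.apply_symm_apply]
    rcases hx x with rfl | rfl | rfl | rfl | rfl | rfl
    · simpa using hs 1
    · rw [← ψ0]; exact hs _
    · rw [← ψ1]; exact hs _
    · rw [← ψ0, ← ψ1, ← map_mul]; exact hs _
    · rw [← ψ0, ← ψ1, ← map_mul]; exact hs _
    · rw [← ψ0, ← ψ1, ← map_mul, ← map_mul]; exact hs _
  · intro h n hn
    have h1 := hker ((θ.symm.trans (MulAut.conjNormal h)).trans θ) (θ n) hn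
    have h2 : ((θ.symm.trans (MulAut.conjNormal h)).trans θ) (θ n) = θ (MulAut.conjNormal h n) := by
      show θ (MulAut.conjNormal h (θ.symm (θ n))) = _
      rw [MulEquiv.symm_apply_apply]
    rw [h2] at h1
    exact h1

end Pool.Agent.X185.IG
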