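import Pool.Agent.X185.IG.Core
import Pool.Agent.TH111.J524
import Pool.Agent.TH716.C3.Main

/-!
Finite presentations and the reduction.
-/

set_option autoImplicit false

namespace Pool.Agent.X185.IG

open Pool.Agent.TH716.C3 Equiv

/-! ### Presentations -/

/-- Reading a word over the alphabet `x_0, …, x_{n-1}` and its inverses: the letter `(i, true)` is
`x_i`, the letter `(i, false)` is `x_i⁻¹`, and letters with index `≥ n` are deleted. -/
def rd (n : ℕ) (r : List (ℕ × Bool)) : List (Fin n × Bool) :=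
  r.filterMap (fun y => if h : y.1 < n then some (⟨y.1, h⟩, y.2) else none)

/-- The set of relators. -/
def rels (n : ℕ) (R : List (List (ℕ × Bool))) : Set (FreeGroup (Fin n)) :=
  {x | ∃ r ∈ R, x = FreeGroup.mk (rd n r)}

/-- The group with the finite presentation `⟨x_0, …, x_{n-1} | R⟩`. -/
abbrev Grp (n : ℕ) (R : List (List (ℕ × Bool))) : Type := PresentedGroup (rels n R)

theorem ev_cons {K : Type} [Group K] (δ : ℕ → K) (y : ℕ × Bool) (r : List (ℕ × Bool)) :
    ev δ (y :: r) = (if y.2 then δ y.1 else (δ y.1)⁻¹) * ev δ r := by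
  unfold ev
  rw [List.map_cons, List.prod_cons]

theorem ev_lift {K : Type} [Group K] (δ : ℕ → K) (n : ℕ) (hδ : ∀ i, n ≤ i → δ i = 1)
    (r : List (ℕ × Bool)) :
    FreeGroup.lift (fun i : Fin n => δ i) (FreeGroup.mk (rd n r)) = ev δ r := by
  rw [FreeGroup.lift_mk]
  induction r with
  | nil => rfl
  | cons y r ih =>
    rw [ev_cons, ← ih]
    unfold rd
    by_cases h : y.1 < n
    · rw [List.filterMap_cons_some (b := (⟨y.1, h⟩, y.2)) (by rw [dif_pos h]), List.map_cons,
        List.prod_cons]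
      congr 1
      cases y.2 <;> rfl
    · rw [List.filterMap_cons_none (by rw [dif_neg h]), hδ _ (by omega)]
      cases y.2 <;> simp

/-- The generators. -/
def gm (n : ℕ) (R : List (List (ℕ × Bool))) (i : ℕ) : Grp n R :=
  if h : i < n then PresentedGroup.of ⟨i, h⟩ else 1

theorem gm_of {n : ℕ} {R : List (List (ℕ × Bool))} (i : Fin n) :
    gm n R i = PresentedGroup.of i := by
  unfold gm
  rw [dif_pos i.2]

theorem ev_gm {n : ℕ} {R : List (List (ℕ × Bool))} {r : List (ℕ × Bool)} (hr : r ∈ R) :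
    ev (gm n R) r = 1 := by
  rw [← ev_lift (gm n R) n (fun i hi => by unfold gm; rw [dif_neg (by omega)])]
  have h1 : (FreeGroup.lift (fun i : Fin n => gm n R i)) = PresentedGroup.mk (rels n R) := by
    ext i
    rw [FreeGroup.lift_apply_of, gm_of]
    rfl
  rw [h1]
  exact (PresentedGroup.mk_eq_one_iff).2 (Subgroup.subset_normalClosure ⟨r, hr, rfl⟩)

theorem exists_hom {n : ℕ} {R : List (List (ℕ × Bool))} {K : Type} [Group K] (δ : ℕ → K)
    (hδ : ∀ i, n ≤ i → δ i = 1) (hR : ∀ r ∈ R, ev δ r = 1) :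
    ∃ Φ : Grp n R →* K, ∀ i, Φ (gm n R i) = δ i := by
  have h1 : ∀ x ∈ rels n R, FreeGroup.lift (fun i : Fin n => δ i) x = 1 := by
    rintro _ ⟨r, hr, rfl⟩
    rw [ev_lift δ n hδ]
    exact hR r hr
  refine ⟨PresentedGroup.toGroup h1, fun i => ?_⟩
  unfold gm
  by_cases h : i < n
  · rw [dif_pos h, PresentedGroup.toGroup.of]
  · rw [dif_neg h, map_one, hδ i (by omega)]

theorem closure_gm (n : ℕ) (R : List (List (ℕ × Bool))) :
    Subgroup.closure {x | ∃ i < n, x = gm n R i} = ⊤ := by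
  rw [eq_top_iff, ← PresentedGroup.closure_range_of, Subgroup.closure_le]
  rintro _ ⟨i, rfl⟩
  exact Subgroup.subset_closure ⟨i, i.2, (gm_of i).symm⟩

/-! ### The words -/

/-- Shift of the alphabet to the copy `j`. -/
def sh (j : ℕ) (r : List (ℕ × Bool)) : List (ℕ × Bool) := r.map (fun x => (3 * x.1 + j, x.2))

theorem ev_sh {K : Type} [Group K] (δ : ℕ → K) (j : ℕ) (r : List (ℕ × Bool)) :
    ev δ (sh j r) = ev (fun h => δ (3 * h + j)) r := by
  unfold ev sh
  rw [List.map_map]
  rfl

theorem map_ev {K L : Type} [Group K] [Group L] (F : K →* L) (δ : ℕ → K)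
    (r : List (ℕ × Bool)) : F (ev δ r) = ev (fun i => F (δ i)) r := by
  induction r with
  | nil => exact map_one F
  | cons y r ih =>
    rw [ev_cons, ev_cons, map_mul, ih]
    congr 1
    cases y.2 <;> simp

theorem ev_one {K : Type} [Group K] (r : List (ℕ × Bool)) : ev (fun _ : ℕ => (1 : K)) r = 1 := by
  induction r with
  | nil => rfl
  | cons y r ih =>
    rw [ev_cons, ih]
    cases y.2 <;> simp

/-- The relators of the perfect group. -/
def relQ {m : ℕ} (R : List (List (Fin m × Bool))) (w : List (Fin m × Bool)) :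
    List (List (ℕ × Bool)) :=
  (List.range (2 * m + 6)).map (rl (gN m)) ++ rsn R w

/-- The relators of the action. -/
def relF (N : ℕ) : List (List (ℕ × Bool)) :=
  (List.range N).flatMap fun h =>
    [[(3 * N, true), (3 * h + 0, true), (3 * N, false), (3 * h + 1, false)],
     [(3 * N, true), (3 * h + 1, true), (3 * N, false), (3 * h + 0, false)],
     [(3 * N, true), (3 * h + 2, true), (3 * N, false), (3 * h + 2, false)],
     [(3 * N + 1, true), (3 * h + 0, true), (3 * N + 1, false), (3 * h + 0, false)],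
     [(3 * N + 1, true), (3 * h + 1, true), (3 * N + 1, false), (3 * h + 2, false)],
     [(3 * N + 1, true), (3 * h + 2, true), (3 * N + 1, false), (3 * h + 1, false)]]

/-- All relators. -/
def relP {m : ℕ} (R : List (List (Fin m × Bool))) (w : List (Fin m × Bool)) :
    List (List (ℕ × Bool)) :=
  (relQ R w).map (sh 0) ++ ((relQ R w).map (sh 1) ++ ((relQ R w).map (sh 2) ++
    relF (2 * m + 6)))

theorem relQ_lt {m : ℕ} (R : List (List (Fin m × Bool))) (w : List (Fin m × Bool)) :
    ∀ r ∈ relQ R w, ∀ x ∈ r, x.1 < 2 * m + 6 := by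
  intro r hr x hx
  unfold relQ at hr
  rw [List.mem_append] at hr
  rcases hr with hr | hr
  · rw [List.mem_map] at hr
    obtain ⟨h, hh, rfl⟩ := hr
    rw [List.mem_range] at hh
    have := gN_lt m h hh
    simp only [rl, List.mem_cons, List.not_mem_nil, or_false] at hx
    rcases hx with rfl | rfl | rfl | rfl | rfl <;> assumption
  · exact (rsn_lt R w r hr).2 x hx

theorem ev_four {K : Type} [Group K] (δ : ℕ → K) (a b c d : ℕ) :
    ev δ [(a, true), (b, true), (c, false), (d, false)] = δ a * δ b * (δ c)⁻¹ * (δ d)⁻¹ := by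
  simp [ev, mul_assoc]

/-- The relators hold for `δ` iff the relators of the copies and of the action hold. -/
theorem relP_iff {m : ℕ} (R : List (List (Fin m × Bool))) (w : List (Fin m × Bool)) {K : Type}
    [Group K] (δ : ℕ → K) : (∀ r ∈ relP R w, ev δ r = 1) ↔
      (∀ j : Fin 3, ∀ r ∈ relQ R w, ev (fun h => δ (3 * h + j)) r = 1) ∧
      (∀ j : Fin 3, ∀ h < 2 * m + 6, δ (3 * (2 * m + 6)) * δ (3 * h + j) *
        (δ (3 * (2 * m + 6)))⁻¹ = δ (3 * h + (swap 0 1 j : Fin 3))) ∧
      (∀ j : Fin 3, ∀ h < 2 * m + 6, δ (3 * (2 * m + 6) + 1) * δ (3 * h + j) *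
        (δ (3 * (2 * m + 6) + 1))⁻¹ = δ (3 * h + (swap 1 2 j : Fin 3))) := by
  have s00 : (swap (0 : Fin 3) 1) 0 = 1 := by decide
  have s01 : (swap (0 : Fin 3) 1) 1 = 0 := by decide
  have s02 : (swap (0 : Fin 3) 1) 2 = 2 := by decide
  have s10 : (swap (1 : Fin 3) 2) 0 = 0 := by decide
  have s11 : (swap (1 : Fin 3) 2) 1 = 2 := by decide
  have s12 : (swap (1 : Fin 3) 2) 2 = 1 := by decide
  have v0 : ((0 : Fin 3) : ℕ) = 0 := rfl
  have v1 : ((1 : Fin 3) : ℕ) = 1 := rfl
  have v2 : ((2 : Fin 3) : ℕ) = 2 := rfl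
  constructor
  · intro H
    have hF : ∀ r ∈ relF (2 * m + 6), ev δ r = 1 := fun r hr => H r (by
      unfold relP
      simp only [List.mem_append]
      exact Or.inr (Or.inr (Or.inr hr)))
    refine ⟨?_, ?_, ?_⟩
    · intro j r hr
      rw [← ev_sh]
      apply H
      unfold relP
      simp only [List.mem_append, List.mem_map]
      fin_cases j
      · exact Or.inl ⟨r, hr, rfl⟩
      · exact Or.inr (Or.inl ⟨r, hr, rfl⟩)
      · exact Or.inr (Or.inr (Or.inl ⟨r, hr, rfl⟩))
    · intro j h hh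
      rw [← mul_inv_eq_one, ← ev_four]
      apply hF
      unfold relF
      rw [List.mem_flatMap]
      refine ⟨h, List.mem_range.2 hh, ?_⟩
      fin_cases j
      · simp [s00]
      · simp [s01]
      · simp [s02]
    · intro j h hh
      rw [← mul_inv_eq_one, ← ev_four]
      apply hF
      unfold relF
      rw [List.mem_flatMap]
      refine ⟨h, List.mem_range.2 hh, ?_⟩
      fin_cases j
      · simp [s10]
      · simp [s11]
      · simp [s12]
  · rintro ⟨H1, H2, H3⟩ r hr
    unfold relP at hr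
    simp only [List.mem_append, List.mem_map] at hr
    rcases hr with ⟨r, hr, rfl⟩ | ⟨r, hr, rfl⟩ | ⟨r, hr, rfl⟩ | hr
    · rw [ev_sh]; exact H1 0 r hr
    · rw [ev_sh]; exact H1 1 r hr
    · rw [ev_sh]; exact H1 2 r hr
    · unfold relF at hr
      rw [List.mem_flatMap] at hr
      obtain ⟨h, hh, hr⟩ := hr
      rw [List.mem_range] at hh
      have a0 := H2 0 h hh
      have a1 := H2 1 h hh
      have a2 := H2 2 h hh
      have b0 := H3 0 h hh
      have b1 := H3 1 h hh
      have b2 := H3 2 h hh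
      rw [s00, v0, v1] at a0
      rw [s01, v0, v1] at a1
      rw [s02, v2] at a2
      rw [s10, v0] at b0
      rw [s11, v1, v2] at b1
      rw [s12, v1, v2] at b2
      simp only [List.mem_cons, List.not_mem_nil, or_false] at hr
      rcases hr with rfl | rfl | rfl | rfl | rfl | rfl <;> rw [ev_four, mul_inv_eq_one] <;>
        assumption

/-! ### The two cases -/

section cases'

variable {m : ℕ} (R : List (List (Fin m × Bool))) (w : List (Fin m × Bool))

/-- The number of generators. -/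
def nG (m : ℕ) : ℕ := 3 * (2 * m + 6) + 2

/-- The group. -/
abbrev PG : Type := Grp (nG m) (relP R w)

theorem rel_gm : (∀ j : Fin 3, ∀ r ∈ relQ R w,
      ev (fun h => gm (nG m) (relP R w) (3 * h + j)) r = 1) ∧
      (∀ j : Fin 3, ∀ h < 2 * m + 6, gm (nG m) (relP R w) (3 * (2 * m + 6)) *
        gm (nG m) (relP R w) (3 * h + j) * (gm (nG m) (relP R w) (3 * (2 * m + 6)))⁻¹ =
        gm (nG m) (relP R w) (3 * h + (swap 0 1 j : Fin 3))) ∧
      (∀ j : Fin 3, ∀ h < 2 * m + 6, gm (nG m) (relP R w) (3 * (2 * m + 6) + 1) *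
        gm (nG m) (relP R w) (3 * h + j) * (gm (nG m) (relP R w) (3 * (2 * m + 6) + 1))⁻¹ =
        gm (nG m) (relP R w) (3 * h + (swap 1 2 j : Fin 3))) :=
  (relP_iff R w (gm (nG m) (relP R w))).1 (fun _ hr => ev_gm hr)

/-- The images in the free group. -/
def dF (m : ℕ) (i : ℕ) : FreeGroup (Fin 2) :=
  if i = 3 * (2 * m + 6) then FreeGroup.of 0 else
    if i = 3 * (2 * m + 6) + 1 then FreeGroup.of 1 else 1

theorem exists_Phi : ∃ Φ : PG R w →* FreeGroup (Fin 2),
    ∀ i, Φ (gm (nG m) (relP R w) i) = dF m i := by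
  apply exists_hom
  · intro i hi
    unfold nG at hi
    unfold dF
    rw [if_neg (by omega), if_neg (by omega)]
  · rw [relP_iff]
    have h0 : ∀ j : Fin 3, ∀ h < 2 * m + 6, dF m (3 * h + j) = 1 := by
      intro j h hh
      unfold dF
      have := j.2
      rw [if_neg (by omega), if_neg (by omega)]
    refine ⟨?_, ?_, ?_⟩
    · intro j r hr
      rw [ev_congr _ (fun _ => 1) (2 * m + 6) (h0 j) r (relQ_lt R w r hr), ev_one]
    · intro j h hh
      rw [h0 _ h hh, h0 _ h hh, mul_one, mul_inv_cancel]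
    · intro j h hh
      rw [h0 _ h hh, h0 _ h hh, mul_one, mul_inv_cancel]

/-- The images in the wreath product. -/
def dW {K : Type} [Group K] (κ : ℕ → K) (m : ℕ) (i : ℕ) : Wr K :=
  if i < 3 * (2 * m + 6) then
    SemidirectProduct.inl (Pi.mulSingle (⟨i % 3, Nat.mod_lt _ (by norm_num)⟩ : Fin 3) (κ (i / 3)))
  else if i = 3 * (2 * m + 6) then SemidirectProduct.inr (swap 0 1) else
    if i = 3 * (2 * m + 6) + 1 then SemidirectProduct.inr (swap 1 2) else 1

theorem dW_lt {K : Type} [Group K] (κ : ℕ → K) (j : Fin 3) (h : ℕ) (hh : h < 2 * m + 6) :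
    dW κ m (3 * h + j) = SemidirectProduct.inl (Pi.mulSingle j (κ h)) := by
  unfold dW
  have := j.2
  rw [if_pos (by omega)]
  have h1 : (3 * h + (j : ℕ)) / 3 = h := by omega
  have h2 : (⟨(3 * h + (j : ℕ)) % 3, Nat.mod_lt _ (by norm_num)⟩ : Fin 3) = j := by
    apply Fin.ext
    show (3 * h + (j : ℕ)) % 3 = j
    omega
  rw [h1, h2]

theorem exists_A {K : Type} [Group K] (κ : ℕ → K)
    (h1 : ∀ h < 2 * m + 6, ev κ (rl (gN m) h) = 1) (h2 : ∀ r ∈ rsn R w, ev κ r = 1) :
    ∃ A : PG R w →* Wr K, ∀ i, A (gm (nG m) (relP R w) i) = dW κ m i := by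
  apply exists_hom
  · intro i hi
    unfold nG at hi
    unfold dW
    rw [if_neg (by omega), if_neg (by omega), if_neg (by omega)]
  · rw [relP_iff]
    refine ⟨?_, ?_, ?_⟩
    · intro j r hr
      rw [ev_congr _ (fun h => (SemidirectProduct.inl (Pi.mulSingle j (κ h)) : Wr K)) (2 * m + 6)
        (fun h hh => dW_lt κ j h hh) r (relQ_lt R w r hr)]
      have h3 := map_ev ((SemidirectProduct.inl : (Fin 3 → K) →* Wr K).comp
        (MonoidHom.mulSingle (fun _ : Fin 3 => K) j)) κ r
      have h4 : ev κ r = 1 := by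
        unfold relQ at hr
        rw [List.mem_append] at hr
        rcases hr with hr | hr
        · rw [List.mem_map] at hr
          obtain ⟨h, hh, rfl⟩ := hr
          exact h1 h (List.mem_range.1 hh)
        · exact h2 r hr
      rw [h4, map_one] at h3
      exact h3.symm
    · intro j h hh
      rw [dW_lt κ _ h hh, dW_lt κ _ h hh]
      have h3 : dW κ m (3 * (2 * m + 6)) = SemidirectProduct.inr (swap 0 1) := by
        unfold dW
        rw [if_neg (by omega), if_pos rfl]
      rw [h3, ← map_inv, ← SemidirectProduct.inl_aut, act_single]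
    · intro j h hh
      rw [dW_lt κ _ h hh, dW_lt κ _ h hh]
      have h3 : dW κ m (3 * (2 * m + 6) + 1) = SemidirectProduct.inr (swap 1 2) := by
        unfold dW
        rw [if_neg (by omega), if_neg (by omega), if_pos rfl]
      rw [h3, ← map_inv, ← SemidirectProduct.inl_aut, act_single]

theorem gens_eq : Subgroup.closure ({x | ∃ j : Fin 3, ∃ h < 2 * m + 6,
    x = gm (nG m) (relP R w) (3 * h + j)} ∪ {gm (nG m) (relP R w) (3 * (2 * m + 6)),
      gm (nG m) (relP R w) (3 * (2 * m + 6) + 1)}) = ⊤ := by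
  rw [eq_top_iff, ← closure_gm, Subgroup.closure_le]
  rintro _ ⟨i, hi, rfl⟩
  apply Subgroup.subset_closure
  unfold nG at hi
  by_cases h : i < 3 * (2 * m + 6)
  · left
    refine ⟨⟨i % 3, Nat.mod_lt _ (by norm_num)⟩, i / 3, by omega, ?_⟩
    congr 1
    show i = 3 * (i / 3) + i % 3
    omega
  · right
    rcases (show i = 3 * (2 * m + 6) ∨ i = 3 * (2 * m + 6) + 1 by omega) with h | h
    · exact Or.inl (by rw [h])
    · exact Or.inr (by rw [h]; rfl)

/-- The no-case. -/
theorem no_int (hw : FreeGroup.mk w ∉ Subgroup.normalClosure {x | ∃ r ∈ R, x = FreeGroup.mk r}) :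
    ¬ Integrable (PG R w) := by
  obtain ⟨K, iK, κ, k1, k2, k3⟩ := Pool.Agent.TH111.J524.s_no m R w hw
  obtain ⟨A, hA⟩ := exists_A R w κ k1 k2
  obtain ⟨Φ, hΦ⟩ := exists_Phi R w
  obtain ⟨r1, r2, r3⟩ := rel_gm R w
  refine not_integrable (2 * m + 6) (by omega) (gN m) (gN_lt m)
    (fun j h => gm (nG m) (relP R w) (3 * h + j)) _ _ ?_ r2 r3 (gens_eq R w) Φ ?_ ?_ ?_ κ k3 A
    ?_ ?_ ?_
  · intro j h hh
    have := r1 j (rl (gN m) h) (by
      unfold relQ
      rw [List.mem_append, List.mem_map]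
      exact Or.inl ⟨h, List.mem_range.2 hh, rfl⟩)
    rw [Pool.Agent.TH111.J524.ev_rl] at this
    exact this
  · intro j h hh
    have := j.2
    rw [hΦ]
    unfold dF
    rw [if_neg (by omega), if_neg (by omega)]
  · rw [hΦ]
    unfold dF
    rw [if_pos rfl]
  · rw [hΦ]
    unfold dF
    rw [if_neg (by omega), if_pos rfl]
  · intro j h hh
    rw [hA, dW_lt κ j h hh]
  · rw [hA]
    unfold dW
    rw [if_neg (by omega), if_pos rfl]
  · rw [hA]
    unfold dW
    rw [if_neg (by omega), if_neg (by omega), if_pos rfl]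

/-- The yes-case. -/
theorem yes_int (hw : FreeGroup.mk w ∈ Subgroup.normalClosure {x | ∃ r ∈ R, x = FreeGroup.mk r}) :
    Integrable (PG R w) := by
  obtain ⟨Φ, hΦ⟩ := exists_Phi R w
  obtain ⟨r1, r2, r3⟩ := rel_gm R w
  have htriv : ∀ j : Fin 3, ∀ h < 2 * m + 6, gm (nG m) (relP R w) (3 * h + j) = 1 := by
    intro j
    refine Pool.Agent.TH111.J524.s_yes m R w hw _ (fun h => gm (nG m) (relP R w) (3 * h + j)) ?_ ?_
    · intro h hh
      apply r1 j
      unfold relQ
      rw [List.mem_append, List.mem_map]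
      exact Or.inl ⟨h, List.mem_range.2 hh, rfl⟩
    · intro r hr h hh
      rw [r1 j r (by
        unfold relQ
        rw [List.mem_append]
        exact Or.inr hr)]
      exact Commute.one_left _
  let Ψ : FreeGroup (Fin 2) →* PG R w := FreeGroup.lift
    ![gm (nG m) (relP R w) (3 * (2 * m + 6)), gm (nG m) (relP R w) (3 * (2 * m + 6) + 1)]
  have Ψ0 : Ψ (FreeGroup.of 0) = gm (nG m) (relP R w) (3 * (2 * m + 6)) := by
    show FreeGroup.lift ![gm (nG m) (relP R w) (3 * (2 * m + 6)),
      gm (nG m) (relP R w) (3 * (2 * m + 6) + 1)] (FreeGroup.of 0) = _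
    rw [FreeGroup.lift_apply_of]; rfl
  have Ψ1 : Ψ (FreeGroup.of 1) = gm (nG m) (relP R w) (3 * (2 * m + 6) + 1) := by
    show FreeGroup.lift ![gm (nG m) (relP R w) (3 * (2 * m + 6)),
      gm (nG m) (relP R w) (3 * (2 * m + 6) + 1)] (FreeGroup.of 1) = _
    rw [FreeGroup.lift_apply_of]; rfl
  have e0 : Φ (gm (nG m) (relP R w) (3 * (2 * m + 6))) = FreeGroup.of 0 := by
    rw [hΦ]
    unfold dF
    rw [if_pos rfl]
  have e1 : Φ (gm (nG m) (relP R w) (3 * (2 * m + 6) + 1)) = FreeGroup.of 1 := by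
    rw [hΦ]
    unfold dF
    rw [if_neg (by omega), if_pos rfl]
  have c1 : Φ.comp Ψ = MonoidHom.id _ := by
    ext i
    fin_cases i
    · show Φ (Ψ (FreeGroup.of 0)) = FreeGroup.of 0
      rw [Ψ0, e0]
    · show Φ (Ψ (FreeGroup.of 1)) = FreeGroup.of 1
      rw [Ψ1, e1]
  have c2 : Ψ.comp Φ = MonoidHom.id _ := by
    refine MonoidHom.eq_of_eqOn_dense (gens_eq R w) ?_
    rintro y (⟨j, h, hh, rfl⟩ | hy | hy)
    · rw [htriv j h hh, map_one, map_one]
    · subst hy
      show Ψ (Φ _) = _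
      rw [e0, Ψ0]
      rfl
    · have hy' : y = gm (nG m) (relP R w) (3 * (2 * m + 6) + 1) := hy
      subst hy'
      show Ψ (Φ _) = _
      rw [e1, Ψ1]
      rfl
  exact free_integrable.of_equiv (MonoidHom.toMulEquiv Ψ Φ c1 c2)

end cases'

/-! ### Computability -/

theorem primrec_sh (j : ℕ) : Primrec (sh j) := by
  unfold sh
  refine Primrec.list_map Primrec.id ?_
  exact Primrec.pair (Primrec.nat_add.comp (Primrec.nat_mul.comp (Primrec.const 3)
    (Primrec.fst.comp Primrec.snd)) (Primrec.const j)) (Primrec.snd.comp Primrec.snd)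

theorem primrec_relQ {m : ℕ} (R : List (List (Fin m × Bool))) : Primrec (relQ R) := by
  unfold relQ
  exact Primrec.list_append.comp (Primrec.const _) (primrec_rsn R)

theorem primrec_relP {m : ℕ} (R : List (List (Fin m × Bool))) : Primrec (relP R) := by
  unfold relP
  have h : ∀ j, Primrec fun w => (relQ R w).map (sh j) := fun j =>
    Primrec.list_map (primrec_relQ R) ((primrec_sh j).comp Primrec.snd)
  exact Primrec.list_append.comp (h 0) (Primrec.list_append.comp (h 1)
    (Primrec.list_append.comp (h 2) (Primrec.const _)))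

end Pool.Agent.X185.IG
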